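import Pool.Agent.Y861.RE.Embed

/-!
# Pozhidaev's conjecture for odd `n`: all perfect `n`-Lie algebras of dimension `n + 1` over all fields, and
everything they separate

Let `n ≥ 3` be odd and `F` a field of characteristic different from two.  Not only `L_{n+1}` but every perfect
`n`-Lie algebra of dimension `n + 1` over an extension field `K` of `F` (all the twisted forms of `L_{n+1}`, one for
every similarity class of nondegenerate quadratic forms in `n + 1` variables) embeds in `A⁻` for an associative
`F`-algebra `A`; so does every `n`-ary algebra over `F` whose derived algebra is separated by homomorphisms to such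
algebras (finite and infinite direct sums of an abelian algebra and such algebras, subalgebras of products, …).

The proof: a perfect `n`-Lie algebra of dimension `n + 1` is given by a nondegenerate symmetric form `h` by
`h ([w_1, …, w_n], y) = det (y, w_1, …, w_n)` (`Pool.Agent.Y861.RE.exists_form`); an orthogonal basis is rescaled over
the algebraic closure, and the relations in the associative algebra of `Pool.Agent.H198R3.PozFinal.exists_alg` are used.
-/

set_option autoImplicit false

namespace Pool.Agent.Y861.RE.AllPerfectForms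

open Module Function

universe u v

/-- The `n`-ary bracket of `A⁻`: the alternating sum
`[a_1, …, a_n] = ∑ σ, sgn σ • a_(σ 1) a_(σ 2) ⋯ a_(σ n)` over all permutations. -/
def minusBracket {A : Type u} [Ring A] {n : ℕ} (a : Fin n → A) : A :=
  ∑ σ : Equiv.Perm (Fin n), ((Equiv.Perm.sign σ : ℤˣ) : ℤ) • (List.ofFn fun k => a (σ k)).prod

/-- The alternating `n`-ary algebra `(L, B)` over `F` embeds in `A⁻` for an associative `F`-algebra `A`. -/
def Embeds (F : Type u) [Field F] {n : ℕ} {L : Type v} [AddCommGroup L] [Module F L] (B : L [⋀^Fin n]→ₗ[F] L) : Prop :=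
  ∃ (A : Type u) (_ : Ring A) (_ : Algebra F A) (j : L →ₗ[F] A),
    Injective j ∧ ∀ w : Fin n → L, j (B w) = minusBracket (fun k => j (w k))

/-- `B` is the bracket of `L_{n+1}` with respect to the basis `e`: it is an alternating `n`-linear map with
`[e_1, …, ê_i, …, e_{n+1}] = (-1)^(n+i+1) e_i` (here the index `i : Fin (n+1)` starts at `0`, so it stands for `i + 1`
in the usual numbering). -/
def IsFilippov {F : Type u} [Field F] {L : Type v} [AddCommGroup L] [Module F L] {n : ℕ}
    (e : Basis (Fin (n + 1)) F L) (B : L [⋀^Fin n]→ₗ[F] L) : Prop :=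
  ∀ i : Fin (n + 1), B (fun k => e (i.succAbove k)) = (-1 : F) ^ (n + ((i : ℕ) + 1) + 1) • e i

/-- The `n`-Lie (Filippov) identity: for every `y` and every place `k` the map `z ↦ [y_1, …, z, …, y_n]` (`z` at the
place `k`) is a derivation of the bracket `B`. -/
def IsNLie {F : Type u} [Field F] {L : Type v} [AddCommGroup L] [Module F L] {n : ℕ} (B : L [⋀^Fin n]→ₗ[F] L) : Prop :=
  ∀ (k : Fin n) (x y : Fin n → L), B (update y k (B x)) = ∑ i, B (update x i (B (update y k (x i))))

/-- `(L, B)` is perfect: the brackets span `L`. -/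
def IsPerfect {F : Type u} [Field F] {L : Type v} [AddCommGroup L] [Module F L] {n : ℕ}
    (B : L [⋀^Fin n]→ₗ[F] L) : Prop :=
  Submodule.span F (Set.range B) = ⊤

/-- `(L, B)` is an alternating `n`-ary algebra over `F` whose derived algebra (the span of the brackets) is separated
by homomorphisms `f i` to perfect `n`-Lie algebras `(S i, C i)` of dimension `n + 1` over extension fields `K i` of
`F`: the only element of the derived algebra which is killed by all `f i` is zero. -/
def Separated (F : Type u) [Field F] {n : ℕ} {L : Type u} [AddCommGroup L] [Module F L] (B : L [⋀^Fin n]→ₗ[F] L) :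
    Prop :=
  ∃ (ι : Type u) (K : ι → Type u) (_ : ∀ i, Field (K i)) (_ : ∀ i, Algebra F (K i)) (S : ι → Type u)
    (_ : ∀ i, AddCommGroup (S i)) (_ : ∀ i, Module F (S i)) (_ : ∀ i, Module (K i) (S i))
    (_ : ∀ i, IsScalarTower F (K i) (S i)) (C : ∀ i, S i [⋀^Fin n]→ₗ[K i] S i) (f : ∀ i, L →ₗ[F] S i),
    (∀ i, finrank (K i) (S i) = n + 1 ∧ IsNLie (C i) ∧ IsPerfect (C i)) ∧
      (∀ i (w : Fin n → L), f i (B w) = C i (fun k => f i (w k))) ∧
      ∀ x ∈ Submodule.span F (Set.range B), (∀ i, f i x = 0) → x = 0

/-- A perfect `n`-Lie algebra of dimension `n + 1` over `F` is separated. -/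
theorem separated_self {F : Type u} [Field F] {n : ℕ} {L : Type u} [AddCommGroup L] [Module F L]
    (B : L [⋀^Fin n]→ₗ[F] L) (hd : finrank F L = n + 1) (hB : IsNLie B) (hp : IsPerfect B) : Separated F B :=
  ⟨PUnit, fun _ => F, fun _ => inferInstance, fun _ => inferInstance, fun _ => L, fun _ => inferInstance,
    fun _ => inferInstance, fun _ => inferInstance, fun _ => inferInstance, fun _ => B, fun _ => LinearMap.id,
    fun _ => ⟨hd, hB, hp⟩, fun _ _ => rfl, fun x _ h => h PUnit.unit⟩

/-- **Pozhidaev's conjecture for odd `n`, all forms.**  Let `n ≥ 3` be odd and `F` a field of characteristic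
different from two.
(1) `L_{n+1}` embeds in `A⁻` for an associative `F`-algebra `A`.
(2) So does every perfect `n`-Lie algebra of dimension `n + 1` over `F`.
(3) So does every alternating `n`-ary algebra over `F` whose derived algebra is separated by homomorphisms to perfect
`n`-Lie algebras of dimension `n + 1` over extension fields of `F`. -/
theorem result (F : Type u) [Field F] (h2 : (2 : F) ≠ 0) (n : ℕ) (hn : 3 ≤ n) (hodd : Odd n) :
    (∀ (L : Type v) [AddCommGroup L] [Module F L] (e : Basis (Fin (n + 1)) F L) (B : L [⋀^Fin n]→ₗ[F] L),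
      IsFilippov e B → Embeds F B) ∧
    (∀ (L : Type v) [AddCommGroup L] [Module F L] (B : L [⋀^Fin n]→ₗ[F] L), finrank F L = n + 1 → IsNLie B →
      IsPerfect B → Embeds F B) ∧
    ∀ (L : Type u) [AddCommGroup L] [Module F L] (B : L [⋀^Fin n]→ₗ[F] L), Separated F B → Embeds F B := by
  refine ⟨?_, ?_, ?_⟩
  · intro L _ _ e B hB
    have hB' : ∀ i : Fin (n + 1), B (fun k => e (i.succAbove k)) = (-1 : F) ^ (n + (i : ℕ)) • e i := by
      intro i
      rw [hB i]
      congr 1
      rw [show n + ((i : ℕ) + 1) + 1 = n + (i : ℕ) + 2 by ring, pow_add]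
      simp
    obtain ⟨t, j, hj, hv⟩ := Pool.Agent.H198R3.PozFinal.embed h2 hn hodd e B hB'
    exact ⟨_, inferInstance, inferInstance, j, hj, hv⟩
  · intro L _ _ B hd hB hp
    obtain ⟨t, j, hj, hv⟩ := Pool.Agent.Y861.RE.embed_perfect h2 hn hodd hd B hB hp
    exact ⟨_, inferInstance, inferInstance, j, hj, hv⟩
  · rintro L _ _ B ⟨ι, K, _, _, S, _, _, _, _, C, f, hS, hf, hsep⟩
    obtain ⟨E⟩ := Pool.Agent.Y861.RE.emb_separated h2 hn hodd B C f (fun i => (hS i).1) (fun i => (hS i).2.1)
      (fun i => (hS i).2.2) hf hsep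
    exact ⟨E.A, E.ring, E.alg, E.j, E.inj, E.map⟩

end Pool.Agent.Y861.RE.AllPerfectForms
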