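import Pool.Agent.Y861.RE.Form

/-!
# Embedding of perfect `n`-Lie algebras of dimension `n + 1`, and of the algebras separated by them
-/

set_option autoImplicit false

namespace Pool.Agent.Y861.RE

open Module Pool.Agent.H198R3 Pool.Agent.H198R3.AltProd Pool.Agent.H198R3.PozAlg Pool.Agent.H198R3.PozFinal Function

lemma altProd_smul {F A : Type*} [Field F] [Ring A] [Algebra F A] {n : ℕ} (s : Fin n → F) (a : Fin n → A) :
    altProd (fun k => s k • a k) = (∏ k, s k) • altProd a := by
  rw [altProd_eq_alternatization (F := F), altProd_eq_alternatization (F := F)]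
  exact MultilinearMap.map_smul_univ
    (MultilinearMap.alternatization (MultilinearMap.mkPiAlgebraFin F n A)).toMultilinearMap s a

/-- **Embedding of the perfect `n`-Lie algebras of dimension `n + 1`, `n` odd.** -/
theorem embed_perfect {K : Type*} [Field K] (h2 : (2 : K) ≠ 0) {n : ℕ} (hn : 3 ≤ n) (hodd : Odd n)
    {L : Type*} [AddCommGroup L] [Module K L] (hd : finrank K L = n + 1) (B : L [⋀^Fin n]→ₗ[K] L)
    (hB : IsNLie B) (hp : IsPerfect B) :
    ∃ t : AlgebraicClosure K, ∃ j : L →ₗ[K] (R (AlgebraicClosure K) n ⧸ idl (n := n) t),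
      Injective j ∧ ∀ v : Fin n → L, j (B v) = altProd (fun k => j (v k)) := by
  obtain ⟨v, c, hc, hv⟩ := exists_orth h2 hn hd hB hp
  have h2' : (2 : AlgebraicClosure K) ≠ 0 := by
    have h := (map_ne_zero (algebraMap K (AlgebraicClosure K))).mpr h2
    rwa [map_ofNat] at h
  obtain ⟨t, ht⟩ := IsAlgClosed.exists_eq_mul_self (-1 : AlgebraicClosure K)
  obtain ⟨x, hx, hxa⟩ := exists_alg (AlgebraicClosure K) h2' t ht.symm n hn hodd
  -- the scaling factors
  have hr : ∀ i, ∃ r : AlgebraicClosure K, -(algebraMap K (AlgebraicClosure K) (c i))⁻¹ = r * r :=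
    fun i => IsAlgClosed.exists_eq_mul_self _
  choose r hr using hr
  have hc' : ∀ i, algebraMap K (AlgebraicClosure K) (c i) ≠ 0 := fun i => (map_ne_zero _).mpr (hc i)
  have hr0 : ∀ i, r i ≠ 0 := by
    intro i h0
    have h1 := hr i
    rw [h0, mul_zero, neg_eq_zero] at h1
    exact inv_ne_zero (hc' i) h1
  obtain ⟨Y, hY⟩ := IsAlgClosed.exists_pow_nat_eq (∏ i, r i)⁻¹ (show 0 < n - 1 by omega)
  have hP0 : (∏ i, r i) ≠ 0 := Finset.prod_ne_zero_iff.2 fun i _ => hr0 i
  have hY0 : Y ≠ 0 := by
    intro h0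
    rw [h0, zero_pow (by omega)] at hY
    exact inv_ne_zero hP0 hY.symm
  let s : Fin (n + 1) → AlgebraicClosure K := fun i => r i * Y
  have hs0 : ∀ i, s i ≠ 0 := fun i => mul_ne_zero (hr0 i) hY0
  have hS : ∏ i, s i = Y * Y := by
    show ∏ i, (r i * Y) = Y * Y
    have h1 : Y ^ (n + 1) = Y ^ (n - 1) * Y ^ 2 := by
      rw [← pow_add]
      congr 1
      omega
    rw [Finset.prod_mul_distrib, Finset.prod_const, Finset.card_univ, Fintype.card_fin, h1, hY, ← mul_assoc,
      mul_inv_cancel₀ hP0, one_mul, pow_two]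
  have hs2 : ∀ i, algebraMap K (AlgebraicClosure K) (c i) * (s i * s i) = -∏ i, s i := by
    intro i
    rw [hS]
    have h1 := hr i
    have h3 : algebraMap K (AlgebraicClosure K) (c i) * (r i * r i) = -1 := by
      rw [← h1, mul_neg, mul_inv_cancel₀ (hc' i)]
    show algebraMap K (AlgebraicClosure K) (c i) * (r i * Y * (r i * Y)) = -(Y * Y)
    linear_combination (Y * Y) * h3
  let A := R (AlgebraicClosure K) n ⧸ idl (n := n) t
  let z : Fin (n + 1) → A := fun i => s i • x i
  refine ⟨t, v.constr K z, ?_, ?_⟩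
  · have hzc : LinearIndependent (AlgebraicClosure K) z := by
      rw [Fintype.linearIndependent_iff] at hx ⊢
      intro g hg i
      have h1 := hx (fun i => g i * s i) (by
        rw [← hg]
        refine Finset.sum_congr rfl fun i _ => ?_
        rw [mul_smul]) i
      exact (mul_eq_zero.1 h1).resolve_right (hs0 i)
    have hxK : LinearIndependent K z := hzc.restrict_scalars' K
    rw [← LinearMap.ker_eq_bot, LinearMap.ker_eq_bot']
    intro y hy
    have h1 : v.constr K z y = ∑ i, v.repr y i • z i := by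
      rw [Basis.constr_apply_fintype]
      rfl
    rw [h1] at hy
    have h3 := Fintype.linearIndependent_iff.mp hxK _ hy
    apply v.repr.injective
    ext i
    rw [h3 i, map_zero]
    rfl
  · intro w
    set j := v.constr K z with hj
    have e3 : ∀ k, j (v k) = s k • x k := fun k => by rw [hj, Basis.constr_basis]
    have halt : ∀ a : Fin n → A, altProd a =
        MultilinearMap.alternatization (MultilinearMap.mkPiAlgebraFin K n A) a :=
      altProd_eq_alternatization
    have key : j.compAlternatingMap B =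
        (MultilinearMap.alternatization (MultilinearMap.mkPiAlgebraFin K n A)).compLinearMap j := by
      apply ext_succ v
      intro i
      rw [LinearMap.compAlternatingMap_apply, hv, map_smul, e3]
      change _ = MultilinearMap.alternatization (MultilinearMap.mkPiAlgebraFin K n A)
        (fun k => j (v (i.succAbove k)))
      rw [← halt]
      simp only [e3]
      rw [altProd_smul (fun k => s (i.succAbove k)) (fun k => x (i.succAbove k)), hxa,
        ← algebraMap_smul (AlgebraicClosure K) ((-1 : K) ^ (i : ℕ) * c i), smul_smul, smul_smul]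
      congr 1
      apply mul_right_cancel₀ (hs0 i)
      have h1 : ∏ l, s l = s i * ∏ k, s (i.succAbove k) := Fin.prod_univ_succAbove _ i
      have h3 := hs2 i
      rw [h1] at h3
      rw [map_mul, map_pow, map_neg, map_one, pow_add, hodd.neg_one_pow]
      linear_combination ((-1 : AlgebraicClosure K) ^ (i : ℕ)) * h3
    have h := congrArg (fun f => f w) key
    simp only [LinearMap.compAlternatingMap_apply, AlternatingMap.compLinearMap_apply] at h
    rw [h, halt]

universe u

/-- An embedding of an `n`-ary algebra in `A⁻`, `A` associative. -/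
structure Emb (F : Type u) [Field F] {n : ℕ} {L : Type u} [AddCommGroup L] [Module F L] (B : (Fin n → L) → L) where
  A : Type u
  [ring : Ring A]
  [alg : Algebra F A]
  j : L →ₗ[F] A
  inj : Injective j
  map : ∀ w, j (B w) = altProd (fun k => j (w k))

attribute [instance] Emb.ring Emb.alg

lemma emb_of {F K : Type u} [Field F] [Field K] [Algebra F K] {n : ℕ} {S : Type u} [AddCommGroup S] [Module F S]
    [Module K S] [IsScalarTower F K S] (C : (Fin n → S) → S) (A : Type u) [Ring A] [Algebra K A] (j : S →ₗ[K] A)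
    (hj : Injective j) (hm : ∀ w, j (C w) = altProd (fun k => j (w k))) : Nonempty (Emb F (n := n) (L := S) C) :=
  let _ : Algebra F A := Algebra.compHom A (algebraMap F K)
  ⟨{ A := A
     j := { toFun := j
            map_add' := map_add j
            map_smul' := fun c x => by
              rw [← algebraMap_smul K c x, map_smul]
              rfl }
     inj := hj
     map := hm }⟩

lemma emb_restrict {F K : Type u} [Field F] [Field K] [Algebra F K] (h2 : (2 : F) ≠ 0) {n : ℕ} (hn : 3 ≤ n)
    (hodd : Odd n) {S : Type u} [AddCommGroup S] [Module F S] [Module K S] [IsScalarTower F K S]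
    (C : S [⋀^Fin n]→ₗ[K] S) (hd : finrank K S = n + 1) (hB : IsNLie C) (hp : IsPerfect C) :
    Nonempty (Emb F (n := n) (L := S) C) := by
  have h2' : (2 : K) ≠ 0 := by
    have h := (map_ne_zero (algebraMap F K)).mpr h2
    rwa [map_ofNat] at h
  obtain ⟨t, j, hj, hm⟩ := embed_perfect h2' hn hodd hd C hB hp
  exact emb_of C _ j hj hm

lemma map_altProd {A A' : Type*} [Ring A] [Ring A'] (φ : A →+* A') {m : ℕ} (a : Fin m → A) :
    φ (altProd a) = altProd (fun k => φ (a k)) := by
  simp only [altProd, map_sum, map_zsmul, map_list_prod, List.map_ofFn]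
  rfl

lemma altProd_zero {A : Type*} [Ring A] {m : ℕ} (hm : 2 ≤ m) (a : Fin m → A) (h : ∀ k l, a k * a l = 0) :
    altProd a = 0 := by
  obtain ⟨r, rfl⟩ : ∃ r, m = r + 2 := ⟨m - 2, by omega⟩
  unfold altProd
  refine Finset.sum_eq_zero fun σ _ => ?_
  rw [List.ofFn_succ, List.ofFn_succ, List.prod_cons, List.prod_cons, ← mul_assoc, h, zero_mul, smul_zero]

/-- the operators `(a, m) ↦ (0, a x)` -/
def nil0 (F M : Type*) [Field F] [AddCommGroup M] [Module F M] : M →ₗ[F] Module.End F (F × M) where
  toFun x := (LinearMap.inr F F M) ∘ₗ (LinearMap.toSpanSingleton F M x) ∘ₗ (LinearMap.fst F F M)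
  map_add' x y := by
    ext <;> simp
  map_smul' c x := by
    ext <;> simp

lemma nil0_apply {F M : Type*} [Field F] [AddCommGroup M] [Module F M] (x : M) (p : F × M) :
    nil0 F M x p = (0, p.1 • x) := rfl

lemma nil0_mul {F M : Type*} [Field F] [AddCommGroup M] [Module F M] (x y : M) : nil0 F M x * nil0 F M y = 0 := by
  apply LinearMap.ext
  intro p
  rw [Module.End.mul_apply, nil0_apply, nil0_apply, LinearMap.zero_apply]
  show ((0 : F), (0 : F) • x) = 0
  rw [zero_smul]
  rfl

/-- **Algebras separated by perfect algebras of dimension `n + 1`.** -/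
theorem emb_separated {F : Type u} [Field F] (h2 : (2 : F) ≠ 0) {n : ℕ} (hn : 3 ≤ n) (hodd : Odd n)
    {L : Type u} [AddCommGroup L] [Module F L] (B : L [⋀^Fin n]→ₗ[F] L) {ι : Type u} {K : ι → Type u}
    [∀ i, Field (K i)] [∀ i, Algebra F (K i)] {S : ι → Type u} [∀ i, AddCommGroup (S i)]
    [∀ i, Module F (S i)] [∀ i, Module (K i) (S i)] [∀ i, IsScalarTower F (K i) (S i)]
    (C : ∀ i, S i [⋀^Fin n]→ₗ[K i] S i) (f : ∀ i, L →ₗ[F] S i)
    (hd : ∀ i, finrank (K i) (S i) = n + 1) (hC : ∀ i, IsNLie (C i)) (hp : ∀ i, IsPerfect (C i))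
    (hf : ∀ i (w : Fin n → L), f i (B w) = C i (fun k => f i (w k)))
    (hsep : ∀ x ∈ Submodule.span F (Set.range B), (∀ i, f i x = 0) → x = 0) :
    Nonempty (Emb F (n := n) (L := L) B) := by
  have hE : ∀ i, Nonempty (Emb F (n := n) (L := S i) (C i)) := fun i =>
    emb_restrict h2 hn hodd (C i) (hd i) (hC i) (hp i)
  let E : ∀ i, Emb F (n := n) (L := S i) (C i) := fun i => Classical.choice (hE i)
  let D : Submodule F L := Submodule.span F (Set.range B)
  let g0 : L →ₗ[F] Module.End F (F × (L ⧸ D)) := (nil0 F (L ⧸ D)) ∘ₗ D.mkQ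
  let g1 : L →ₗ[F] (∀ i, (E i).A) := LinearMap.pi fun i => (E i).j ∘ₗ f i
  refine ⟨{ A := Module.End F (F × (L ⧸ D)) × (∀ i, (E i).A)
            j := g0.prod g1
            inj := ?_
            map := ?_ }⟩
  · rw [← LinearMap.ker_eq_bot, LinearMap.ker_eq_bot']
    intro x hx
    have h0 : g0 x = 0 := congrArg Prod.fst hx
    have h1 : g1 x = 0 := congrArg Prod.snd hx
    refine hsep x ?_ fun i => ?_
    · have h3 : nil0 F (L ⧸ D) (D.mkQ x) ((1 : F), 0) = 0 := by
        show g0 x ((1 : F), 0) = 0
        rw [h0]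
        rfl
      rw [nil0_apply, one_smul] at h3
      have h4 : D.mkQ x = 0 := congrArg Prod.snd h3
      rw [Submodule.mkQ_apply, Submodule.Quotient.mk_eq_zero] at h4
      exact h4
    · have h3 : (E i).j (f i x) = 0 := congrFun h1 i
      exact (E i).inj (by rw [h3, map_zero])
  · intro w
    refine Prod.ext ?_ (funext fun i => ?_)
    · show g0 (B w) = (RingHom.fst (Module.End F (F × (L ⧸ D))) (∀ i, (E i).A)) (altProd fun k => (g0 (w k), g1 (w k)))
      rw [map_altProd]
      have h3 : g0 (B w) = 0 := by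
        show nil0 F (L ⧸ D) (D.mkQ (B w)) = 0
        have h4 : D.mkQ (B w) = 0 := by
          rw [Submodule.mkQ_apply, Submodule.Quotient.mk_eq_zero]
          exact Submodule.subset_span ⟨w, rfl⟩
        rw [h4, map_zero]
      rw [h3]
      exact (altProd_zero (by omega) _ fun k l => nil0_mul _ _).symm
    · show (E i).j (f i (B w)) = ((Pi.evalRingHom (fun i => (E i).A) i).comp
        (RingHom.snd (Module.End F (F × (L ⧸ D))) (∀ i, (E i).A))) (altProd fun k => (g0 (w k), g1 (w k)))
      rw [map_altProd, hf, (E i).map]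
      rfl

end Pool.Agent.Y861.RE
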