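import Pool.Agent.H198R3.PozFinal

/-!
# `n`-Lie algebras of dimension `n + 1` which are perfect

Such an algebra is given by a nondegenerate symmetric bilinear form: `h (B w) y = det (y, w)`.
-/

set_option autoImplicit false

namespace Pool.Agent.Y861.RE

open Module Pool.Agent.H198R3 Pool.Agent.H198R3.PozFinal Function

section form

variable {K : Type*} [Field K] {n : ℕ} {L : Type*} [AddCommGroup L] [Module K L]

/-- The `n`-Lie (Filippov) identity: for all `y`, the map `z ↦ [y_1, …, z, …, y_n]` (with `z` at the place `k`)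
is a derivation of the `n`-ary bracket `B`. -/
def IsNLie (B : L [⋀^Fin n]→ₗ[K] L) : Prop :=
  ∀ (k : Fin n) (x y : Fin n → L), B (update y k (B x)) = ∑ i, B (update x i (B (update y k (x i))))

/-- The algebra is spanned by the brackets. -/
def IsPerfect (B : L [⋀^Fin n]→ₗ[K] L) : Prop := Submodule.span K (Set.range B) = ⊤

lemma ext_succ {N : Type*} [AddCommGroup N] [Module K N] (e : Basis (Fin (n + 1)) K L)
    {f g : L [⋀^Fin n]→ₗ[K] N}
    (h : ∀ i : Fin (n + 1), f (fun k => e (i.succAbove k)) = g (fun k => e (i.succAbove k))) :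
    f = g := by
  apply Basis.ext_alternating e
  intro w hw
  obtain ⟨i, σ, rfl⟩ := injective_factor w hw
  have e1 : (fun k => e (i.succAbove (σ k))) = (fun k => e (i.succAbove k)) ∘ σ := rfl
  rw [e1, f.map_perm, g.map_perm, h]

/-- the determinant `det (y, w_1, …, w_n)` -/
noncomputable def dt (e : Basis (Fin (n + 1)) K L) : L →ₗ[K] L [⋀^Fin n]→ₗ[K] K := e.det.curryLeft

lemma dt_apply (e : Basis (Fin (n + 1)) K L) (y : L) (w : Fin n → L) :
    dt e y w = e.det (Matrix.vecCons y w) := rfl

lemma dt_family (e : Basis (Fin (n + 1)) K L) (v : Fin (n + 1) → L) (i : Fin (n + 1)) :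
    dt e (v i) (fun k => v (i.succAbove k)) = (-1) ^ (i : ℕ) * e.det v := by
  have h : Matrix.vecCons (v i) (fun k => v (i.succAbove k)) = v ∘ i.cycleRange.symm := by
    funext k
    refine Fin.cases ?_ (fun k => ?_) k
    · show v i = v (i.cycleRange.symm 0)
      rw [Fin.cycleRange_symm_zero]
    · show v (i.succAbove k) = v (i.cycleRange.symm k.succ)
      rw [Fin.cycleRange_symm_succ]
  rw [dt_apply, h, AlternatingMap.map_perm, Equiv.Perm.sign_symm, Fin.sign_cycleRange, Units.smul_def,
    zsmul_eq_mul]
  push_cast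
  rfl

lemma dt_rep (e : Basis (Fin (n + 1)) K L) (y : L) (w : Fin n → L) (k : Fin n) (h : w k = y) :
    dt e y w = 0 := by
  rw [dt_apply]
  refine e.det.map_eq_zero_of_eq _ (i := 0) (j := k.succ) ?_ (Fin.succ_ne_zero k).symm
  show y = w k
  exact h.symm

lemma dt_swap (e : Basis (Fin (n + 1)) K L) (a c : L) (w : Fin n → L) (s : Fin n) :
    dt e a (update w s c) = - dt e c (update w s a) := by
  rw [dt_apply, dt_apply, ← AlternatingMap.map_swap e.det _ (Fin.succ_ne_zero s).symm]
  congr 1
  funext k
  refine Fin.cases ?_ (fun k => ?_) k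
  · show a = Matrix.vecCons c (update w s a) (Equiv.swap 0 s.succ 0)
    rw [Equiv.swap_apply_left]
    show a = update w s a s
    rw [update_self]
  · show update w s c k = Matrix.vecCons c (update w s a) (Equiv.swap 0 s.succ k.succ)
    by_cases hk : k = s
    · subst hk
      rw [update_self, Equiv.swap_apply_right]
      rfl
    · rw [update_of_ne hk, Equiv.swap_apply_of_ne_of_ne (Fin.succ_ne_zero k) (fun h => hk (Fin.succ_injective _ h))]
      show w k = update w s a k
      rw [update_of_ne hk]

lemma dt_coord (e : Basis (Fin (n + 1)) K L) (k : Fin (n + 1)) (s : Fin n) (z : L) :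
    dt e (e k) (update (fun r => e (k.succAbove r)) s z) = (-1) ^ (k : ℕ) * e.coord (k.succAbove s) z := by
  have h : ((dt e (e k)).toMultilinearMap.toLinearMap (fun r => e (k.succAbove r)) s) =
      ((-1 : K) ^ (k : ℕ)) • e.coord (k.succAbove s) := by
    apply e.ext
    intro l
    show dt e (e k) (update (fun r => e (k.succAbove r)) s (e l)) = (-1) ^ (k : ℕ) * e.coord (k.succAbove s) (e l)
    by_cases h : l = k.succAbove s
    · subst h
      have h1 : update (fun r => e (k.succAbove r)) s (e (k.succAbove s)) = fun r => e (k.succAbove r) :=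
        update_eq_self s (fun r => e (k.succAbove r))
      rw [h1, dt_family, e.det_self, Basis.coord_apply, Basis.repr_self, Finsupp.single_eq_same]
    · rw [Basis.coord_apply, Basis.repr_self, Finsupp.single_eq_of_ne (Ne.symm h), mul_zero]
      by_cases hk : l = k
      · subst hk
        exact dt_rep e _ _ s (update_self _ _ _)
      · obtain ⟨s', rfl⟩ := Fin.exists_succAbove_eq hk
        have hs : s' ≠ s := fun h' => h (by rw [h'])
        refine (dt e (e k)).map_eq_zero_of_eq _ (i := s) (j := s') ?_ hs.symm
        rw [update_self, update_of_ne hs]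
  exact LinearMap.congr_fun h z

/-- the vectors `(-1)^i [e_0, …, ê_i, …, e_n]` -/
noncomputable def bet (e : Basis (Fin (n + 1)) K L) (B : L [⋀^Fin n]→ₗ[K] L) (i : Fin (n + 1)) : L :=
  (-1 : K) ^ (i : ℕ) • B (fun k => e (i.succAbove k))

lemma neg_one_sq_pow (i : ℕ) : ((-1 : K) ^ i) * (-1) ^ i = 1 := by
  rw [← mul_pow]
  norm_num

lemma B_bet (e : Basis (Fin (n + 1)) K L) (B : L [⋀^Fin n]→ₗ[K] L) (i : Fin (n + 1)) :
    B (fun k => e (i.succAbove k)) = (-1 : K) ^ (i : ℕ) • bet e B i := by
  rw [bet, smul_smul, neg_one_sq_pow, one_smul]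

lemma alt_sum {ι N : Type*} [AddCommGroup N] [Module K N] (s : Finset ι) (f : ι → L [⋀^Fin n]→ₗ[K] N)
    (w : Fin n → L) : (∑ i ∈ s, f i) w = ∑ i ∈ s, f i w := by
  classical
  induction s using Finset.induction_on with
  | empty => rfl
  | insert a s ha ih =>
    rw [Finset.sum_insert ha, Finset.sum_insert ha, AlternatingMap.add_apply, ih]

lemma B_eq (e : Basis (Fin (n + 1)) K L) (B : L [⋀^Fin n]→ₗ[K] L) (w : Fin n → L) :
    B w = ∑ j, dt e (e j) w • bet e B j := by
  have h : B = ∑ j, (LinearMap.toSpanSingleton K L (bet e B j)).compAlternatingMap (dt e (e j)) := by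
    apply ext_succ e
    intro i
    rw [alt_sum, Finset.sum_eq_single i]
    · show _ = dt e (e i) (fun k => e (i.succAbove k)) • bet e B i
      rw [dt_family, e.det_self, mul_one, B_bet]
    · intro j _ hj
      show dt e (e j) (fun k => e (i.succAbove k)) • bet e B j = 0
      obtain ⟨s, rfl⟩ := Fin.exists_succAbove_eq hj
      rw [show dt e (e (i.succAbove s)) (fun k => e (i.succAbove k)) = 0 from dt_rep e _ _ s rfl, zero_smul]
    · intro hi
      exact absurd (Finset.mem_univ _) hi
  conv_lhs => rw [h]
  rw [alt_sum]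
  rfl

/-- **Perfect `n`-Lie algebras of dimension `n + 1` are given by a nondegenerate symmetric form.** -/
theorem exists_form (hn : 3 ≤ n) (e : Basis (Fin (n + 1)) K L) {B : L [⋀^Fin n]→ₗ[K] L} (hB : IsNLie B)
    (hp : IsPerfect B) :
    ∃ h : LinearMap.BilinForm K L, (∀ x y, h x y = h y x) ∧ h.SeparatingLeft ∧ ∀ w y, h (B w) y = dt e y w := by
  classical
  have hspan : ⊤ ≤ Submodule.span K (Set.range (bet e B)) := by
    rw [← hp]
    refine Submodule.span_le.2 ?_
    rintro _ ⟨w, rfl⟩
    rw [B_eq e B w]
    exact Submodule.sum_mem _ fun j _ => Submodule.smul_mem _ _ (Submodule.subset_span ⟨j, rfl⟩)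
  have hcard : Fintype.card (Fin (n + 1)) = finrank K L := by
    rw [finrank_eq_card_basis e]
  let b := basisOfTopLeSpanOfCardEqFinrank (bet e B) hspan hcard
  have hb : ∀ i, b i = bet e B i := fun i => by
    rw [coe_basisOfTopLeSpanOfCardEqFinrank]
  have hc : ∀ (k : Fin (n + 1)) (w : Fin n → L), b.coord k (B w) = dt e (e k) w := by
    intro k w
    rw [B_eq e B w, map_sum, Finset.sum_eq_single k]
    · rw [map_smul, ← hb, Basis.coord_apply, Basis.repr_self, Finsupp.single_eq_same, smul_eq_mul, mul_one]
    · intro j _ hj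
      rw [map_smul, ← hb, Basis.coord_apply, Basis.repr_self, Finsupp.single_eq_of_ne hj.symm, smul_zero]
    · intro hk
      exact absurd (Finset.mem_univ _) hk
  -- the matrix is symmetric
  have hsym : ∀ i j, e.coord i (b j) = e.coord j (b i) := by
    intro i j
    by_cases hij : i = j
    · rw [hij]
    obtain ⟨k, hki, hkj⟩ : ∃ k : Fin (n + 1), k ≠ i ∧ k ≠ j := by
      by_contra hcon
      push Not at hcon
      have h1 : (Finset.univ : Finset (Fin (n + 1))) ⊆ {i, j} := by
        intro k _
        rw [Finset.mem_insert, Finset.mem_singleton]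
        by_cases hk : k = i
        · exact Or.inl hk
        · exact Or.inr (hcon k hk)
      have h2 := Finset.card_le_card h1
      have h3 : ({i, j} : Finset (Fin (n + 1))).card ≤ 2 := Finset.card_le_two
      rw [Finset.card_univ, Fintype.card_fin] at h2
      omega
    obtain ⟨s, hs⟩ := Fin.exists_succAbove_eq hij
    let y : Fin n → L := fun r => e (j.succAbove r)
    let D : L → L := fun z => B (update y s z)
    have hDi : D (e i) = (-1 : K) ^ (j : ℕ) • b j := by
      show B (update y s (e i)) = _
      have h1 : update y s (e i) = y := by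
        rw [← hs]
        exact update_eq_self s y
      rw [h1, hb]
      exact B_bet e B j
    have hDl : ∀ l, l ≠ i → l ≠ j → D (e l) = 0 := by
      intro l hli hlj
      obtain ⟨s', hs'⟩ := Fin.exists_succAbove_eq hlj
      have hne : s' ≠ s := by
        intro h'
        apply hli
        rw [← hs', ← hs, h']
      refine B.map_eq_zero_of_eq _ (i := s) (j := s') ?_ hne.symm
      rw [update_self, update_of_ne hne]
      show e l = e (j.succAbove s')
      rw [hs']
    have hDj : D (e j) = -((-1 : K) ^ (j : ℕ) • b i) := by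
      apply b.repr.injective
      ext l
      have h1 : b.coord l (D (e j)) = -((-1 : K) ^ (j : ℕ) * e.coord i (e l)) := by
        show b.coord l (B (update y s (e j))) = _
        rw [hc, dt_swap]
        show -dt e (e j) (update (fun r => e (j.succAbove r)) s (e l)) = _
        rw [dt_coord, hs]
      have h2 : b.coord l (-((-1 : K) ^ (j : ℕ) • b i)) = -((-1 : K) ^ (j : ℕ) * b.coord l (b i)) := by
        rw [map_neg, map_smul, smul_eq_mul]
      show b.coord l (D (e j)) = b.coord l (-((-1 : K) ^ (j : ℕ) • b i))
      rw [h1, h2]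
      congr 2
      rw [Basis.coord_apply, Basis.repr_self, Basis.coord_apply, Basis.repr_self]
      by_cases hli : l = i
      · rw [hli]
      · rw [Finsupp.single_eq_of_ne (Ne.symm hli), Finsupp.single_eq_of_ne hli]
    have hid := congrArg (b.coord k) (hB s (fun r => e (k.succAbove r)) y)
    have hl : b.coord k (B (update y s (B fun r => e (k.succAbove r)))) = 0 := by
      rw [hc]
      obtain ⟨s', hs'⟩ := Fin.exists_succAbove_eq hkj
      have hne : s' ≠ s := by
        intro h'
        apply hki
        rw [← hs', ← hs, h']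
      refine dt_rep e _ _ s' ?_
      rw [update_of_ne hne]
      show e (j.succAbove s') = e k
      rw [hs']
    rw [hl, map_sum] at hid
    have hr : ∀ r : Fin n, b.coord k (B (update (fun r => e (k.succAbove r)) r (B (update y s (e (k.succAbove r)))))) =
        (-1) ^ (k : ℕ) * e.coord (k.succAbove r) (D (e (k.succAbove r))) := by
      intro r
      rw [hc, dt_coord]
    rw [Finset.sum_congr rfl fun r _ => hr r, ← Finset.mul_sum] at hid
    have h0 : ∑ l, e.coord l (D (e l)) = 0 := by
      rw [Fin.sum_univ_succAbove _ k, hDl k hki hkj, map_zero, zero_add]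
      have h1 := hid.symm
      exact (mul_eq_zero.1 h1).resolve_left (pow_ne_zero _ (by norm_num))
    have h1 : ∑ l, e.coord l (D (e l)) = e.coord i (D (e i)) + e.coord j (D (e j)) := by
      rw [← Finset.sum_subset (Finset.subset_univ ({i, j} : Finset (Fin (n + 1)))), Finset.sum_pair hij]
      intro l _ hl
      rw [Finset.mem_insert, Finset.mem_singleton] at hl
      push Not at hl
      rw [hDl l hl.1 hl.2, map_zero]
    rw [h0, hDi, hDj, map_neg, map_smul, map_smul, smul_eq_mul, smul_eq_mul] at h1
    have h2 : ((-1 : K) ^ (j : ℕ)) * (e.coord i (b j) - e.coord j (b i)) = 0 := by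
      linear_combination -h1
    exact sub_eq_zero.1 ((mul_eq_zero.1 h2).resolve_left (pow_ne_zero _ (by norm_num)))
  -- the form
  let h : LinearMap.BilinForm K L := b.constr K (fun i => e.coord i)
  have hh : ∀ i, h (b i) = e.coord i := fun i => b.constr_basis K _ i
  have hflip : ∀ x y, h x y = h y x := by
    have h1 : h = h.flip := by
      refine LinearMap.ext_basis b b fun i j => ?_
      show h (b i) (b j) = h (b j) (b i)
      rw [hh, hh]
      exact hsym i j
    intro x y
    conv_lhs => rw [h1]
    rfl
  have h3 : ∀ x l, h x (e l) = b.coord l x := by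
    intro x l
    have h4 : (LinearMap.applyₗ (e l)).comp h = b.coord l := by
      apply b.ext
      intro i
      show h (b i) (e l) = b.coord l (b i)
      rw [hh, Basis.coord_apply, Basis.repr_self, Basis.coord_apply, Basis.repr_self]
      by_cases hli : l = i
      · rw [hli]
      · rw [Finsupp.single_eq_of_ne (Ne.symm hli), Finsupp.single_eq_of_ne hli]
    exact LinearMap.congr_fun h4 x
  refine ⟨h, hflip, ?_, ?_⟩
  · intro x hx
    apply b.repr.injective
    ext l
    have h5 := h3 x l
    rw [hx] at h5
    rw [map_zero]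
    exact h5.symm
  · intro w y
    let F : L →ₗ[K] K :=
      { toFun := fun y => dt e y w
        map_add' := fun y y' => by
          show dt e (y + y') w = dt e y w + dt e y' w
          rw [map_add]
          rfl
        map_smul' := fun c y => by
          show dt e (c • y) w = c • dt e y w
          rw [map_smul]
          rfl }
    have h4 : h (B w) = F := by
      apply e.ext
      intro l
      show h (B w) (e l) = dt e (e l) w
      rw [h3, hc]
    exact LinearMap.congr_fun h4 y

/-- **The orthogonal basis.** -/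
theorem exists_orth (h2 : (2 : K) ≠ 0) (hn : 3 ≤ n) (hd : finrank K L = n + 1) {B : L [⋀^Fin n]→ₗ[K] L}
    (hB : IsNLie B) (hp : IsPerfect B) :
    ∃ (v : Basis (Fin (n + 1)) K L) (c : Fin (n + 1) → K), (∀ i, c i ≠ 0) ∧
      ∀ i : Fin (n + 1), B (fun k => v (i.succAbove k)) = ((-1 : K) ^ (i : ℕ) * c i) • v i := by
  have : FiniteDimensional K L := FiniteDimensional.of_finrank_pos (by omega)
  let e : Basis (Fin (n + 1)) K L := (finBasis K L).reindex (finCongr hd)
  obtain ⟨h, hs, hnd, hB'⟩ := exists_form hn e hB hp
  have : Invertible (2 : K) := invertibleOfNonzero h2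
  have hsym : LinearMap.IsSymm h := ⟨fun x y => hs x y⟩
  obtain ⟨v0, hv0⟩ := LinearMap.BilinForm.exists_orthogonal_basis hsym
  let v : Basis (Fin (n + 1)) K L := v0.reindex (finCongr hd)
  have hv : ∀ i j, i ≠ j → h (v i) (v j) = 0 := by
    intro i j hij
    show h (v0.reindex (finCongr hd) i) (v0.reindex (finCongr hd) j) = 0
    rw [Basis.reindex_apply, Basis.reindex_apply]
    exact hv0 (fun h => hij ((finCongr hd).symm.injective h))
  have hv' : ∀ i, h (v i) (v i) ≠ 0 := by
    intro i
    show h (v0.reindex (finCongr hd) i) (v0.reindex (finCongr hd) i) ≠ 0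
    rw [Basis.reindex_apply]
    exact hv0.not_isOrtho_basis_self_of_separatingLeft hnd _
  have hdet : e.det v ≠ 0 := (e.isUnit_det v).ne_zero
  refine ⟨v, fun i => e.det v / h (v i) (v i), fun i => div_ne_zero hdet (hv' i), fun i => ?_⟩
  rw [← sub_eq_zero]
  apply hnd
  intro y
  have h1 : h (B (fun k => v (i.succAbove k)) - ((-1 : K) ^ (i : ℕ) * (e.det v / h (v i) (v i))) • v i) = 0 := by
    apply v.ext
    intro j
    rw [map_sub, LinearMap.sub_apply, map_smul, LinearMap.smul_apply, hB', LinearMap.zero_apply, smul_eq_mul]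
    by_cases hij : j = i
    · subst hij
      rw [dt_family, mul_assoc, div_mul_cancel₀ _ (hv' j), sub_self]
    · obtain ⟨s, rfl⟩ := Fin.exists_succAbove_eq hij
      rw [show dt e (v (i.succAbove s)) (fun k => v (i.succAbove k)) = 0 from dt_rep e _ _ s rfl,
        hv _ _ (Ne.symm hij), mul_zero, sub_zero]
  rw [h1, LinearMap.zero_apply]

end form

end Pool.Agent.Y861.RE
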